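import Pool.Agent.L7h54.GR.Stm

/-!
Project GR, part INN: twisting an Ising model.  Positive definite functions on `V → Bool`.
-/

set_option autoImplicit false

set_option linter.unusedSectionVars false

namespace Pool.Agent.L7h65.GR

open Finset Pool.Agent.L7h54.GR
open scoped symmDiff

section

variable {V : Type}

/-- the sign of a spin -/
def sg (b : Bool) : ℝ := if b then -1 else 1

theorem sg_sq (b : Bool) : sg b * sg b = 1 := by cases b <;> simp [sg]

theorem sg_xor (a b : Bool) : sg (xor a b) = sg a * sg b := by cases a <;> cases b <;> simp [sg]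

/-- the characters -/
def chi [DecidableEq V] (T : Finset V) (s : V → Bool) : ℝ := ∏ v ∈ T, sg (s v)

variable [DecidableEq V]

theorem chi_mul (T U : Finset V) (s : V → Bool) : chi T s * chi U s = chi (T ∆ U) s := by
  unfold chi
  have h1 : ∏ v ∈ T, sg (s v) = (∏ v ∈ T \ U, sg (s v)) * ∏ v ∈ T ∩ U, sg (s v) := by
    rw [← Finset.prod_union (Finset.disjoint_left.2 fun v h1 h2 =>
      (mem_sdiff.1 h1).2 (mem_inter.1 h2).2)]
    congr 1
    ext v; simp only [mem_union, mem_sdiff, mem_inter]; tauto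
  have h2 : ∏ v ∈ U, sg (s v) = (∏ v ∈ U \ T, sg (s v)) * ∏ v ∈ T ∩ U, sg (s v) := by
    rw [← Finset.prod_union (Finset.disjoint_left.2 fun v h1 h2 =>
      (mem_sdiff.1 h1).2 (mem_inter.1 h2).1)]
    congr 1
    ext v; simp only [mem_union, mem_sdiff, mem_inter]; tauto
  have h3 : ∏ v ∈ T ∆ U, sg (s v) = (∏ v ∈ T \ U, sg (s v)) * ∏ v ∈ U \ T, sg (s v) := by
    rw [← Finset.prod_union (Finset.disjoint_left.2 fun v h1 h2 =>
      (mem_sdiff.1 h1).2 (mem_sdiff.1 h2).1)]
    rfl
  have h4 : (∏ v ∈ T ∩ U, sg (s v)) * ∏ v ∈ T ∩ U, sg (s v) = 1 := by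
    rw [← Finset.prod_mul_distrib]
    exact Finset.prod_eq_one fun v _ => sg_sq _
  rw [h1, h2, h3]
  linear_combination (∏ v ∈ T \ U, sg (s v)) * (∏ v ∈ U \ T, sg (s v)) * h4

/-- positive definite functions -/
inductive PD : ((V → Bool) → ℝ) → Prop
  | chi (T : Finset V) : PD (chi T)
  | add {f g : (V → Bool) → ℝ} : PD f → PD g → PD (fun s => f s + g s)
  | smul {c : ℝ} {f : (V → Bool) → ℝ} : 0 ≤ c → PD f → PD (fun s => c * f s)

theorem PD.congr {f g : (V → Bool) → ℝ} (h : PD f) (e : ∀ s, f s = g s) : PD g := by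
  have : f = g := funext e
  rw [← this]; exact h

theorem PD.zero : PD (fun _ : V → Bool => (0 : ℝ)) :=
  (PD.smul le_rfl (PD.chi (∅ : Finset V))).congr fun s => by simp

theorem PD.const {c : ℝ} (hc : 0 ≤ c) : PD (fun _ : V → Bool => c) :=
  (PD.smul hc (PD.chi (∅ : Finset V))).congr fun s => by simp [GR.chi]

theorem PD.mul {f g : (V → Bool) → ℝ} (hf : PD f) (hg : PD g) : PD (fun s => f s * g s) := by
  induction hf with
  | chi T =>
    induction hg with
    | chi U => exact (PD.chi (T ∆ U)).congr fun s => (chi_mul T U s).symm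
    | add _ _ h1 h2 => exact (h1.add h2).congr fun s => by ring
    | smul hc _ h1 => exact (PD.smul hc h1).congr fun s => by ring
  | add _ _ h1 h2 => exact (h1.add h2).congr fun s => by ring
  | smul hc _ h1 => exact (PD.smul hc h1).congr fun s => by ring

theorem PD.sum {ι : Type} (I : Finset ι) {f : ι → (V → Bool) → ℝ} (h : ∀ i ∈ I, PD (f i)) :
    PD (fun s => ∑ i ∈ I, f i s) := by
  classical
  induction I using Finset.induction_on with
  | empty => exact PD.zero.congr fun s => by simp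
  | insert a I ha ih =>
    refine ((h a (mem_insert_self _ _)).add (ih fun i hi => h i (mem_insert_of_mem hi))).congr
      fun s => ?_
    rw [Finset.sum_insert ha]

theorem PD.prod {ι : Type} (I : Finset ι) {f : ι → (V → Bool) → ℝ} (h : ∀ i ∈ I, PD (f i)) :
    PD (fun s => ∏ i ∈ I, f i s) := by
  classical
  induction I using Finset.induction_on with
  | empty => exact (PD.const one_pos.le).congr fun s => by simp
  | insert a I ha ih =>
    refine ((h a (mem_insert_self _ _)).mul (ih fun i hi => h i (mem_insert_of_mem hi))).congr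
      fun s => ?_
    rw [Finset.prod_insert ha]

theorem PD.sum_nonneg [Fintype V] {f : (V → Bool) → ℝ} (hf : PD f) : 0 ≤ ∑ s, f s := by
  induction hf with
  | chi T =>
    have h1 : ∑ s : V → Bool, GR.chi T s = ∏ v : V, ∑ b : Bool, (if v ∈ T then sg b else 1) := by
      rw [Finset.prod_univ_sum, Fintype.piFinset_univ]
      refine Finset.sum_congr rfl fun s _ => ?_
      unfold GR.chi
      rw [Finset.prod_ite_mem, Finset.univ_inter]
    rw [h1]
    refine Finset.prod_nonneg fun v _ => ?_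
    by_cases h : v ∈ T
    · simp [h, sg]
    · simp [h]
  | add _ _ h1 h2 => rw [Finset.sum_add_distrib]; exact add_nonneg h1 h2
  | smul hc _ h1 => rw [← Finset.mul_sum]; exact mul_nonneg hc h1

/-- domination of the Fourier coefficients -/
def Dom (f F : (V → Bool) → ℝ) : Prop := PD (fun s => F s + f s) ∧ PD (fun s => F s - f s)

theorem Dom.mul {f g F G : (V → Bool) → ℝ} (h1 : Dom f F) (h2 : Dom g G) :
    Dom (fun s => f s * g s) (fun s => F s * G s) := by
  refine ⟨(PD.smul (by norm_num : (0:ℝ) ≤ 1 / 2)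
    ((h1.1.mul h2.1).add (h1.2.mul h2.2))).congr fun s => by ring,
    (PD.smul (by norm_num : (0:ℝ) ≤ 1 / 2)
    ((h1.1.mul h2.2).add (h1.2.mul h2.1))).congr fun s => by ring⟩

theorem Dom.one : Dom (fun _ : V → Bool => (1 : ℝ)) (fun _ => 1) :=
  ⟨PD.const (by norm_num), PD.zero.congr fun s => by simp⟩

theorem Dom.congr {f g F G : (V → Bool) → ℝ} (h : Dom f F) (e1 : ∀ s, f s = g s)
    (e2 : ∀ s, F s = G s) : Dom g G := by
  have a1 : f = g := funext e1
  have a2 : F = G := funext e2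
  rw [← a1, ← a2]; exact h

theorem Dom.prod {ι : Type} (I : Finset ι) {f F : ι → (V → Bool) → ℝ}
    (h : ∀ i ∈ I, Dom (f i) (F i)) :
    Dom (fun s => ∏ i ∈ I, f i s) (fun s => ∏ i ∈ I, F i s) := by
  classical
  induction I using Finset.induction_on with
  | empty => exact Dom.one.congr (fun s => by simp) fun s => by simp
  | insert a I ha ih =>
    refine ((h a (mem_insert_self _ _)).mul (ih fun i hi => h i (mem_insert_of_mem hi))).congr
      (fun s => ?_) fun s => ?_
    · rw [Finset.prod_insert ha]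
    · rw [Finset.prod_insert ha]

theorem Dom.sum_le [Fintype V] {f F : (V → Bool) → ℝ} (h : Dom f F) : ∑ s, f s ≤ ∑ s, F s := by
  have := h.2.sum_nonneg
  rw [Finset.sum_sub_distrib] at this
  linarith

end

section bonds

variable {V B : Type} [DecidableEq V] [DecidableEq B] (a b : B → V) (t : B → Bool)

/-- the character of a bond -/
def ch (e : B) (s : V → Bool) : ℝ := sg (s (a e)) * sg (s (b e))

theorem ch_PD (e : B) : PD (ch a b e) :=
  ((PD.chi {a e}).mul (PD.chi {b e})).congr fun s => by simp [chi, ch]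

theorem ch_sq (e : B) (s : V → Bool) : ch a b e s * ch a b e s = 1 := by
  unfold ch
  linear_combination (sg (s (a e)) * sg (s (a e))) * sg_sq (s (b e)) + sg_sq (s (a e))

theorem gw_eq (q : ℝ) (z : Bool) : gw q z = (1 + q) / 2 + (1 - q) / 2 * sg z := by
  cases z <;> simp [gw, sg] <;> ring

theorem gw_t (q : ℝ) (e : B) (s : V → Bool) :
    gw q (xor (xor (s (a e)) (s (b e))) (t e)) =
      (1 + q) / 2 + (1 - q) / 2 * (sg (t e) * ch a b e s) := by
  rw [gw_eq, sg_xor, sg_xor]; unfold ch; ring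

theorem gw_0 (q : ℝ) (e : B) (s : V → Bool) :
    gw q (xor (s (a e)) (s (b e))) = (1 + q) / 2 + (1 - q) / 2 * ch a b e s := by
  rw [gw_eq, sg_xor]; rfl

theorem sg_false : sg false = 1 := by simp [sg]

theorem sg_true : sg true = -1 := by simp [sg]

theorem dom_bond {q : ℝ} (hq : 0 < q) (hq1 : q < 1) (e : B) :
    Dom (fun s => gw q (xor (xor (s (a e)) (s (b e))) (t e)))
      (fun s => gw q (xor (s (a e)) (s (b e)))) := by
  have h1 : 0 ≤ 1 + q := by linarith
  have hs : sg (t e) = 1 ∨ sg (t e) = -1 := by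
    cases t e
    · exact Or.inl sg_false
    · exact Or.inr sg_true
  constructor
  · rcases hs with ht | ht
    · refine ((PD.const h1).add (PD.smul (by linarith : 0 ≤ 1 - q) (ch_PD a b e))).congr
        fun s => ?_
      beta_reduce
      rw [gw_t a b t, gw_0 a b, ht]; ring
    · refine (PD.const h1).congr fun s => ?_
      beta_reduce
      rw [gw_t a b t, gw_0 a b, ht]; ring
  · rcases hs with ht | ht
    · refine PD.zero.congr fun s => ?_
      beta_reduce
      rw [gw_t a b t, gw_0 a b, ht]; ring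
    · refine (PD.smul (by linarith : 0 ≤ 1 - q) (ch_PD a b e)).congr fun s => ?_
      beta_reduce
      rw [gw_t a b t, gw_0 a b, ht]; ring

theorem ch_cycle [Fintype V] {E : Finset B}
    (h : ∀ v : V, Even ((E.filter (fun e => a e = v)).card + (E.filter (fun e => b e = v)).card))
    (s : V → Bool) : ∏ e ∈ E, ch a b e s = 1 := by
  unfold ch
  rw [Finset.prod_mul_distrib]
  have h1 : ∀ c : B → V, ∏ e ∈ E, sg (s (c e)) =
      ∏ v : V, sg (s v) ^ (E.filter (fun e => c e = v)).card := by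
    intro c
    rw [← Finset.prod_fiberwise E c (fun e => sg (s (c e)))]
    refine Finset.prod_congr rfl fun v _ => ?_
    rw [Finset.prod_congr rfl (g := fun _ => sg (s v)) (fun e he => by
      rw [(Finset.mem_filter.1 he).2]), Finset.prod_const]
  rw [h1 a, h1 b, ← Finset.prod_mul_distrib]
  refine Finset.prod_eq_one fun v _ => ?_
  rw [← pow_add]
  obtain ⟨m, hm⟩ := h v
  rw [hm, ← two_mul, pow_mul, sq, sg_sq, one_pow]

theorem sg_cycle {E : Finset B} (h : Odd (E.filter (fun e => t e = true)).card) :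
    ∏ e ∈ E, sg (t e) = -1 := by
  unfold sg
  rw [Finset.prod_ite]
  simp [h.neg_one_pow]

theorem ratio {p p' : ℝ} (hp' : 0 < p') (hp : p' ≤ p) {n m j : ℕ} (hmn : m ≤ n) (hj : j ≤ m) :
    (p' / p) ^ n * (p ^ (m - j) * p' ^ j) ≤ p ^ j * p' ^ (m - j) := by
  have hpp : 0 < p := lt_of_lt_of_le hp' hp
  have h1 : (p' / p) ^ n ≤ (p' / p) ^ m :=
    pow_le_pow_of_le_one (by positivity) ((div_le_one hpp).2 hp) hmn
  have h2 : (p' / p) ^ m * (p ^ (m - j) * p' ^ j) = p' ^ (m - j) * (p' ^ j * (p' / p) ^ j) := by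
    have e : m = (m - j) + j := by omega
    nth_rewrite 1 [e]
    rw [pow_add, div_pow, div_pow]
    field_simp
  have h3 : p' ^ j * (p' / p) ^ j ≤ p ^ j := by
    rw [← mul_pow]
    refine pow_le_pow_left₀ (by positivity) ?_ j
    rw [mul_div_assoc']
    rw [div_le_iff₀ hpp]
    exact mul_le_mul hp hp hp'.le hpp.le
  calc (p' / p) ^ n * (p ^ (m - j) * p' ^ j) ≤ (p' / p) ^ m * (p ^ (m - j) * p' ^ j) :=
        mul_le_mul_of_nonneg_right h1 (by positivity)
    _ = p' ^ (m - j) * (p' ^ j * (p' / p) ^ j) := h2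
    _ ≤ p' ^ (m - j) * p ^ j := mul_le_mul_of_nonneg_left h3 (by positivity)
    _ = _ := mul_comm _ _

theorem dom_cycle [Fintype V] {q : ℝ} (hq : 0 < q) (hq1 : q < 1) {n : ℕ} {E : Finset B}
    (hn : E.card ≤ n)
    (h : ∀ v : V, Even ((E.filter (fun e => a e = v)).card + (E.filter (fun e => b e = v)).card))
    (ht : Odd (E.filter (fun e => t e = true)).card) :
    Dom (fun s => ∏ e ∈ E, gw q (xor (xor (s (a e)) (s (b e))) (t e)))
      (fun s => dl q n * ∏ e ∈ E, gw q (xor (s (a e)) (s (b e)))) := by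
  set p := (1 + q) / 2 with hp
  set p' := (1 - q) / 2 with hp'
  have p0 : 0 < p' := by rw [hp']; linarith
  have pp : p' ≤ p := by rw [hp, hp']; linarith
  have ppos : 0 < p := lt_of_lt_of_le p0 pp
  set Wn := (p' / p) ^ n with hWn
  have hW0 : 0 < Wn := by positivity
  have hdl : dl q n = (1 - Wn) / (1 + Wn) := by
    have : (1 - q) / (1 + q) = p' / p := by
      rw [hp, hp']; field_simp
    unfold dl; rw [this]
  set u : Finset B → ℝ := fun Y => p ^ (E.card - Y.card) * p' ^ Y.card with hu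
  set v : Finset B → ℝ := fun Y => p ^ Y.card * p' ^ (E.card - Y.card) with hv
  set X : Finset B → (V → Bool) → ℝ := fun Y s => ∏ e ∈ Y, ch a b e s with hX
  set ep : Finset B → ℝ := fun Y => ∏ e ∈ Y, sg (t e) with hep
  have hXE : ∀ Y ⊆ E, ∀ s, X (E \ Y) s = X Y s := by
    intro Y hY s
    have h1 : X (E \ Y) s * X Y s = 1 := by
      simp only [hX]
      rw [Finset.prod_sdiff hY, ch_cycle a b h s]
    have h2 : X Y s * X Y s = 1 := by
      simp only [hX]
      rw [← Finset.prod_mul_distrib]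
      exact Finset.prod_eq_one fun e _ => ch_sq a b e s
    linear_combination X Y s * h1 - X (E \ Y) s * h2
  have hepE : ∀ Y ⊆ E, ep (E \ Y) = -ep Y := by
    intro Y hY
    have h1 : ep (E \ Y) * ep Y = -1 := by
      simp only [hep]
      rw [Finset.prod_sdiff hY, sg_cycle t ht]
    have h2 : ep Y * ep Y = 1 := by
      simp only [hep]
      rw [← Finset.prod_mul_distrib]
      exact Finset.prod_eq_one fun e _ => sg_sq _
    linear_combination ep Y * h1 - ep (E \ Y) * h2
  have hcard : ∀ Y ⊆ E, (E \ Y).card = E.card - Y.card := fun Y hY => Finset.card_sdiff_of_subset hY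
  have F1 : ∀ s, ∏ e ∈ E, gw q (xor (s (a e)) (s (b e))) = ∑ Y ∈ E.powerset, u Y * X Y s := by
    intro s
    simp_rw [gw_0]
    rw [Finset.prod_congr rfl (fun e _ => add_comm _ _), Finset.prod_add]
    refine Finset.sum_congr rfl fun Y hY => ?_
    rw [Finset.mem_powerset] at hY
    rw [Finset.prod_mul_distrib, Finset.prod_const, Finset.prod_const, hcard Y hY]
    simp only [hu, hX]; ring
  have F2 : ∀ s, ∏ e ∈ E, gw q (xor (s (a e)) (s (b e))) = ∑ Y ∈ E.powerset, v Y * X Y s := by
    intro s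
    simp_rw [gw_0]
    rw [Finset.prod_add]
    refine Finset.sum_congr rfl fun Y hY => ?_
    rw [Finset.mem_powerset] at hY
    rw [Finset.prod_mul_distrib, Finset.prod_const, Finset.prod_const, hcard Y hY]
    have := hXE Y hY s
    simp only [hX] at this
    rw [this]
    simp only [hv, hX]; ring
  have f1 : ∀ s, ∏ e ∈ E, gw q (xor (xor (s (a e)) (s (b e))) (t e)) =
      ∑ Y ∈ E.powerset, u Y * ep Y * X Y s := by
    intro s
    simp_rw [gw_t]
    rw [Finset.prod_congr rfl (fun e _ => add_comm _ _), Finset.prod_add]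
    refine Finset.sum_congr rfl fun Y hY => ?_
    rw [Finset.mem_powerset] at hY
    rw [Finset.prod_mul_distrib, Finset.prod_mul_distrib, Finset.prod_const, Finset.prod_const,
      hcard Y hY]
    simp only [hu, hX, hep]; ring
  have f2 : ∀ s, ∏ e ∈ E, gw q (xor (xor (s (a e)) (s (b e))) (t e)) =
      ∑ Y ∈ E.powerset, -(v Y * ep Y) * X Y s := by
    intro s
    simp_rw [gw_t]
    rw [Finset.prod_add]
    refine Finset.sum_congr rfl fun Y hY => ?_
    rw [Finset.mem_powerset] at hY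
    rw [Finset.prod_mul_distrib, Finset.prod_mul_distrib, Finset.prod_const, Finset.prod_const,
      hcard Y hY]
    have h3 := hXE Y hY s
    have h4 := hepE Y hY
    simp only [hX, hep] at h3 h4
    rw [h3, h4]
    simp only [hv, hX, hep]; ring
  have XPD : ∀ Y, PD (X Y) := fun Y => PD.prod Y fun e _ => ch_PD a b e
  have eppm : ∀ Y, ep Y = 1 ∨ ep Y = -1 := by
    intro Y
    have h2 : ep Y * ep Y = 1 := by
      simp only [hep]
      rw [← Finset.prod_mul_distrib]
      exact Finset.prod_eq_one fun e _ => sg_sq _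
    exact mul_self_eq_one_iff.1 h2
  have key : ∀ Y ⊆ E, |u Y - v Y| ≤ dl q n * (u Y + v Y) := by
    intro Y hY
    have hj : Y.card ≤ E.card := Finset.card_le_card hY
    have r1 : Wn * u Y ≤ v Y := ratio p0 pp hn hj
    have r2 : Wn * v Y ≤ u Y := by
      have := ratio p0 pp hn (j := E.card - Y.card) (Nat.sub_le _ _)
      rw [Nat.sub_sub_self hj] at this
      exact this
    have hu0 : 0 < u Y := by simp only [hu]; positivity
    have hv0 : 0 < v Y := by simp only [hv]; positivity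
    rw [hdl, div_mul_eq_mul_div, le_div_iff₀ (by positivity)]
    rcases abs_cases (u Y - v Y) with ⟨h1, _⟩ | ⟨h1, _⟩ <;> rw [h1] <;> nlinarith
  have G1 : ∀ s, (dl q n * ∏ e ∈ E, gw q (xor (s (a e)) (s (b e)))) +
      ∏ e ∈ E, gw q (xor (xor (s (a e)) (s (b e))) (t e)) =
      ∑ Y ∈ E.powerset, (1 / 2 * (dl q n * (u Y + v Y) + ep Y * (u Y - v Y))) * X Y s := by
    intro s
    have e1 : ∏ e ∈ E, gw q (xor (s (a e)) (s (b e))) =
        1 / 2 * (∑ Y ∈ E.powerset, u Y * X Y s + ∑ Y ∈ E.powerset, v Y * X Y s) := by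
      rw [← F1 s, ← F2 s]; ring
    have e2 : ∏ e ∈ E, gw q (xor (xor (s (a e)) (s (b e))) (t e)) =
        1 / 2 * (∑ Y ∈ E.powerset, u Y * ep Y * X Y s + ∑ Y ∈ E.powerset, -(v Y * ep Y) * X Y s) := by
      rw [← f1 s, ← f2 s]; ring
    rw [e1, e2, ← Finset.sum_add_distrib, ← Finset.sum_add_distrib, Finset.mul_sum, Finset.mul_sum,
      Finset.mul_sum, ← Finset.sum_add_distrib]
    exact Finset.sum_congr rfl fun Y _ => by ring
  have G2 : ∀ s, (dl q n * ∏ e ∈ E, gw q (xor (s (a e)) (s (b e)))) -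
      ∏ e ∈ E, gw q (xor (xor (s (a e)) (s (b e))) (t e)) =
      ∑ Y ∈ E.powerset, (1 / 2 * (dl q n * (u Y + v Y) - ep Y * (u Y - v Y))) * X Y s := by
    intro s
    have e1 : ∏ e ∈ E, gw q (xor (s (a e)) (s (b e))) =
        1 / 2 * (∑ Y ∈ E.powerset, u Y * X Y s + ∑ Y ∈ E.powerset, v Y * X Y s) := by
      rw [← F1 s, ← F2 s]; ring
    have e2 : ∏ e ∈ E, gw q (xor (xor (s (a e)) (s (b e))) (t e)) =
        1 / 2 * (∑ Y ∈ E.powerset, u Y * ep Y * X Y s + ∑ Y ∈ E.powerset, -(v Y * ep Y) * X Y s) := by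
      rw [← f1 s, ← f2 s]; ring
    rw [e1, e2, ← Finset.sum_add_distrib, ← Finset.sum_add_distrib, Finset.mul_sum, Finset.mul_sum,
      Finset.mul_sum, ← Finset.sum_sub_distrib]
    exact Finset.sum_congr rfl fun Y _ => by ring
  constructor
  · refine (PD.sum E.powerset (f := fun Y s => (1 / 2 * (dl q n * (u Y + v Y) +
      ep Y * (u Y - v Y))) * X Y s) fun Y hY => PD.smul ?_ (XPD Y)).congr fun s => (G1 s).symm
    have := key Y (Finset.mem_powerset.1 hY)
    have h3 := abs_le.1 this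
    rcases eppm Y with h | h <;> rw [h] <;> linarith [h3.1, h3.2]
  · refine (PD.sum E.powerset (f := fun Y s => (1 / 2 * (dl q n * (u Y + v Y) -
      ep Y * (u Y - v Y))) * X Y s) fun Y hY => PD.smul ?_ (XPD Y)).congr fun s => (G2 s).symm
    have := key Y (Finset.mem_powerset.1 hY)
    have h3 := abs_le.1 this
    rcases eppm Y with h | h <;> rw [h] <;> linarith [h3.1, h3.2]

end bonds

theorem s_INN : S_INN := by
  intro V B ι _ _ _ _ a b t q n A I E hq hq1 hEA hdis hcard hev hodd
  set U : Finset B := I.biUnion E with hU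
  have hUA : U ⊆ A := by
    intro e he
    obtain ⟨i, hi, h⟩ := Finset.mem_biUnion.1 he
    exact hEA i hi h
  have hpd : Set.PairwiseDisjoint (↑I : Set ι) E := fun i hi j hj hij => hdis i hi j hj hij
  have e1 : ∀ g : B → ℝ, ∏ e ∈ A, g e = (∏ e ∈ A \ U, g e) * ∏ i ∈ I, ∏ e ∈ E i, g e := by
    intro g
    rw [← Finset.prod_biUnion hpd, Finset.prod_sdiff hUA]
  have D1 : Dom (fun s : V → Bool => ∏ e ∈ A \ U, gw q (xor (xor (s (a e)) (s (b e))) (t e)))
      (fun s => ∏ e ∈ A \ U, gw q (xor (s (a e)) (s (b e)))) :=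
    Dom.prod (A \ U) (f := fun e s => gw q (xor (xor (s (a e)) (s (b e))) (t e)))
      (F := fun e s => gw q (xor (s (a e)) (s (b e)))) fun e _ => dom_bond a b t hq hq1 e
  have D2 : Dom (fun s : V → Bool => ∏ i ∈ I, ∏ e ∈ E i,
        gw q (xor (xor (s (a e)) (s (b e))) (t e)))
      (fun s => ∏ i ∈ I, (dl q n * ∏ e ∈ E i, gw q (xor (s (a e)) (s (b e))))) :=
    Dom.prod I (f := fun i s => ∏ e ∈ E i, gw q (xor (xor (s (a e)) (s (b e))) (t e)))
      (F := fun i s => dl q n * ∏ e ∈ E i, gw q (xor (s (a e)) (s (b e)))) fun i hi =>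
      dom_cycle a b t hq hq1 (hcard i hi) (hev i hi) (hodd i hi)
  have D3 := (D1.mul D2).sum_le
  have l1 : ∑ s : V → Bool, ∏ e ∈ A, gw q (xor (xor (s (a e)) (s (b e))) (t e)) =
      ∑ s : V → Bool, (∏ e ∈ A \ U, gw q (xor (xor (s (a e)) (s (b e))) (t e))) *
        ∏ i ∈ I, ∏ e ∈ E i, gw q (xor (xor (s (a e)) (s (b e))) (t e)) :=
    Finset.sum_congr rfl fun s _ => e1 _
  have l2 : dl q n ^ I.card * ∑ s : V → Bool, ∏ e ∈ A, gw q (xor (s (a e)) (s (b e))) =
      ∑ s : V → Bool, (∏ e ∈ A \ U, gw q (xor (s (a e)) (s (b e)))) *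
        ∏ i ∈ I, (dl q n * ∏ e ∈ E i, gw q (xor (s (a e)) (s (b e)))) := by
    rw [Finset.mul_sum]
    refine Finset.sum_congr rfl fun s _ => ?_
    rw [e1, Finset.prod_mul_distrib, Finset.prod_const]
    ring
  rw [l1, l2]
  exact D3

end Pool.Agent.L7h65.GR
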