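import Pool.Agent.L7h54.GR.Stm

/-!
Project GR, part UP: the cost function is 1-Lipschitz.
-/

set_option autoImplicit false
set_option linter.unusedSectionVars false

namespace Pool.Agent.L7h65.GR

open Finset Pool.Agent.L7h54.GR
open scoped symmDiff

/-- one step along the edge `e` -/
structure Mv (k : ℕ) (g g' : LL) (e : ℤ) (ty : Bool) : Prop where
  hm : (g.m = e ∧ g'.m = e + 1) ∨ (g.m = e + 1 ∧ g'.m = e)
  hc : ∀ z, z ≠ e → (z ∈ g'.c ↔ z ∈ g.c)
  hce : ty = true → (e ∈ g'.c ↔ e ∉ g.c)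
  hce' : ty = false → (e ∈ g'.c ↔ e ∈ g.c)
  hh : ∀ y, y ≠ (if ty = true then e else e + k) → (y ∈ g'.h ↔ y ∈ g.h)
  hq : ∀ y, y ≠ (if ty = true then e else e + 1) → (y ∈ g'.q ↔ y ∈ g.q)

theorem ins_off {m m' e z : ℤ} (h : (m = e ∧ m' = e + 1) ∨ (m = e + 1 ∧ m' = e)) (hz : z ≠ e) :
    ins m' z ↔ ins m z := by
  unfold ins; omega

theorem ins_on {m m' e : ℤ} (h : (m = e ∧ m' = e + 1) ∨ (m = e + 1 ∧ m' = e)) :
    ins m' e ↔ ¬ ins m e := by
  unfold ins; omega

section lamps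

variable {j e a b a' b' m m' : ℤ} {c c' f f' : Finset ℤ}

theorem uns_A (_hj : 1 ≤ j)
    (hU : ∀ z, z ≠ e → (svU c' a' b' m' z ↔ svU c a b m z))
    (hL : ∀ z, z ≠ e → (svL c' a' b' m' z ↔ svL c a b m z))
    (h1 : svU c' a' b' m' e) (h2 : svL c' a' b' m' e)
    (hf : ∀ y, y ≠ e → y ≠ e + j → (y ∈ f' ↔ y ∈ f)) :
    uns j c' f' a' b' m' ⊆ uns j c f a b m := by
  intro y hy
  unfold uns at hy ⊢
  rw [mem_filter] at hy ⊢
  obtain ⟨hy1, hy2, hy3⟩ := hy
  have n1 : y ≠ e := by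
    rintro rfl; exact hy2 h1
  have n2 : y ≠ e + j := by
    rintro rfl; rw [add_sub_cancel_right] at hy3; exact hy3 h2
  refine ⟨(hf y n1 n2).1 hy1, fun h => hy2 ((hU y n1).2 h), fun h => hy3 ((hL (y - j) ?_).2 h)⟩
  intro h; apply n2; omega

theorem uns_B (_hj : 1 ≤ j)
    (hU : ∀ z, z ≠ e → (svU c' a' b' m' z ↔ svU c a b m z))
    (hL : ∀ z, z ≠ e → (svL c' a' b' m' z ↔ svL c a b m z))
    (h1 : svU c' a' b' m' e ∨ svL c' a' b' m' e)
    (hf : ∀ y, y ≠ e → y ≠ e + j → (y ∈ f' ↔ y ∈ f)) :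
    (uns j c' f' a' b' m').card ≤ (uns j c f a b m).card + 1 := by
  have key : ∀ y ∈ uns j c' f' a' b' m', y ≠ e → y ≠ e + j → y ∈ uns j c f a b m := by
    intro y hy n1 n2
    unfold uns at hy ⊢
    rw [mem_filter] at hy ⊢
    obtain ⟨hy1, hy2, hy3⟩ := hy
    refine ⟨(hf y n1 n2).1 hy1, fun h => hy2 ((hU y n1).2 h), fun h => hy3 ((hL (y - j) ?_).2 h)⟩
    intro h; apply n2; omega
  rcases h1 with h1 | h1
  · have hs : uns j c' f' a' b' m' ⊆ insert (e + j) (uns j c f a b m) := by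
      intro y hy
      by_cases n2 : y = e + j
      · rw [n2]; exact mem_insert_self _ _
      · refine mem_insert_of_mem (key y hy ?_ n2)
        rintro rfl
        exact (mem_filter.1 hy).2.1 h1
    exact (card_le_card hs).trans (card_insert_le _ _)
  · have hs : uns j c' f' a' b' m' ⊆ insert e (uns j c f a b m) := by
      intro y hy
      by_cases n1 : y = e
      · rw [n1]; exact mem_insert_self _ _
      · refine mem_insert_of_mem (key y hy n1 ?_)
        rintro rfl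
        have := (mem_filter.1 hy).2.2
        rw [add_sub_cancel_right] at this
        exact this h1
    exact (card_le_card hs).trans (card_insert_le _ _)

theorem uns_CU (_hj : 1 ≤ j)
    (hU : ∀ z, z ≠ e → (svU c' a' b' m' z ↔ svU c a b m z))
    (hL : ∀ z, z ≠ e → (svL c' a' b' m' z ↔ svL c a b m z))
    (h1 : svU c' a' b' m' e) (h2 : ¬ svL c a b m e)
    (hf : ∀ y, y ≠ e → (y ∈ f' ↔ y ∈ f)) :
    uns j c' f' a' b' m' ⊆ uns j c f a b m := by
  intro y hy
  unfold uns at hy ⊢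
  rw [mem_filter] at hy ⊢
  obtain ⟨hy1, hy2, hy3⟩ := hy
  have n1 : y ≠ e := by
    rintro rfl; exact hy2 h1
  refine ⟨(hf y n1).1 hy1, fun h => hy2 ((hU y n1).2 h), fun h => ?_⟩
  by_cases n2 : y - j = e
  · rw [n2] at h; exact h2 h
  · exact hy3 ((hL (y - j) n2).2 h)

theorem uns_CL (_hj : 1 ≤ j)
    (hU : ∀ z, z ≠ e → (svU c' a' b' m' z ↔ svU c a b m z))
    (hL : ∀ z, z ≠ e → (svL c' a' b' m' z ↔ svL c a b m z))
    (h1 : svL c' a' b' m' e) (h2 : ¬ svU c a b m e)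
    (hf : ∀ y, y ≠ e + j → (y ∈ f' ↔ y ∈ f)) :
    uns j c' f' a' b' m' ⊆ uns j c f a b m := by
  intro y hy
  unfold uns at hy ⊢
  rw [mem_filter] at hy ⊢
  obtain ⟨hy1, hy2, hy3⟩ := hy
  have n2 : y ≠ e + j := by
    rintro rfl; rw [add_sub_cancel_right] at hy3; exact hy3 h1
  refine ⟨(hf y n2).1 hy1, fun h => ?_, fun h => hy3 ((hL (y - j) ?_).2 h)⟩
  · by_cases n1 : y = e
    · rw [n1] at h; exact h2 h
    · exact hy2 ((hU y n1).2 h)
  · intro h; apply n2; omega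

end lamps

theorem sub_c {g g' : LL} {e a b a' b' : ℤ} (hc : ∀ z, z ≠ e → (z ∈ g'.c ↔ z ∈ g.c))
    (h : g.c ⊆ Ico a b) (h1 : a' ≤ a) (h2 : b ≤ b') (h3 : a' ≤ e) (h4 : e < b') :
    g'.c ⊆ Ico a' b' := by
  intro z hz
  by_cases hze : z = e
  · rw [hze, mem_Ico]; exact ⟨h3, h4⟩
  · have := mem_Ico.1 (h ((hc z hze).1 hz))
    rw [mem_Ico]; omega

theorem sub_f {f f' : Finset ℤ} {y a b a' b' : ℤ} (hf : ∀ z, z ≠ y → (z ∈ f' ↔ z ∈ f))
    (h : f ⊆ Icc a b) (h1 : a' ≤ a) (h2 : b ≤ b') (h3 : a' ≤ y) (h4 : y ≤ b') :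
    f' ⊆ Icc a' b' := by
  intro z hz
  by_cases hze : z = y
  · rw [hze, mem_Icc]; exact ⟨h3, h4⟩
  · have := mem_Icc.1 (h ((hf z hze).1 hz))
    rw [mem_Icc]; omega

theorem R_move {k : ℕ} (hk : 1 ≤ k) {g g' : LL} {e : ℤ} {ty : Bool} (h : Mv k g g' e ty) {n : ℕ}
    (hR : R k g n) : R k g' (n + 1) := by
  obtain ⟨a, b, ha, ham, hb, hmb, hc, hh, hq, hcost⟩ := hR
  have hk' : (1 : ℤ) ≤ k := by exact_mod_cast hk
  have hm := h.hm
  have io := fun z hz => ins_off (z := z) hm hz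
  have ion := ins_on hm
  have hfh : ∀ y, y ≠ e → y ≠ e + k → (y ∈ g'.h ↔ y ∈ g.h) := fun y n1 n2 => h.hh y (by
    split_ifs <;> assumption)
  have hfq : ∀ y, y ≠ e → y ≠ e + 1 → (y ∈ g'.q ↔ y ∈ g.q) := fun y n1 n2 => h.hq y (by
    split_ifs <;> assumption)
  by_cases hr : a ≤ e ∧ e < b
  · have hU : ∀ z, z ≠ e → (svU g'.c a b g'.m z ↔ svU g.c a b g.m z) := by
      intro z hz
      unfold svU; rw [io z hz, h.hc z hz]
    have hL : ∀ z, z ≠ e → (svL g'.c a b g'.m z ↔ svL g.c a b g.m z) := by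
      intro z hz
      unfold svL; rw [io z hz, h.hc z hz]
    refine ⟨a, b, ha, by omega, hb, by omega, sub_c h.hc hc le_rfl le_rfl hr.1 hr.2,
      sub_f h.hh hh le_rfl le_rfl (by split_ifs <;> omega) (by split_ifs <;> omega),
      sub_f h.hq hq le_rfl le_rfl (by split_ifs <;> omega) (by split_ifs <;> omega), ?_⟩
    by_cases hi : ins g.m e
    · have h0 : ¬ ins g'.m e := by rw [ion, not_not]; exact hi
      have s1 : svU g'.c a b g'.m e := ⟨hr.1, hr.2, Or.inl h0⟩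
      have s2 : svL g'.c a b g'.m e := ⟨hr.1, hr.2, Or.inl h0⟩
      have c1 := card_le_card (uns_A (f' := g'.h) (f := g.h) hk' hU hL s1 s2 hfh)
      have c2 := card_le_card (uns_A (f' := g'.q) (f := g.q) le_rfl hU hL s1 s2 hfq)
      have hab : |g'.m| = |g.m| - 1 := by
        unfold ins at hi
        rcases abs_cases g.m with ⟨q1, q2⟩ | ⟨q1, q2⟩ <;> rcases abs_cases g'.m with ⟨q3, q4⟩ | ⟨q3, q4⟩ <;>
          rw [q1, q3] <;> omega
      push_cast
      omega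
    · have h0 : svU g'.c a b g'.m e ∨ svL g'.c a b g'.m e := by
        by_cases hce : e ∈ g'.c
        · exact Or.inl ⟨hr.1, hr.2, Or.inr hce⟩
        · exact Or.inr ⟨hr.1, hr.2, Or.inr hce⟩
      have c1 := uns_B (f' := g'.h) (f := g.h) hk' hU hL h0 hfh
      have c2 := uns_B (f' := g'.q) (f := g.q) le_rfl hU hL h0 hfq
      have hab : |g'.m| = |g.m| + 1 := by
        unfold ins at hi
        rcases abs_cases g.m with ⟨q1, q2⟩ | ⟨q1, q2⟩ <;> rcases abs_cases g'.m with ⟨q3, q4⟩ | ⟨q3, q4⟩ <;>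
          rw [q1, q3] <;> omega
      push_cast
      omega
  · -- a new edge
    obtain ⟨a', b', hab', hae, heb, haa, hbb, ham', hmb', hsub⟩ : ∃ a' b' : ℤ,
        (b' - a' = b - a + 1) ∧ a' ≤ e ∧ e < b' ∧ a' ≤ a ∧ b ≤ b' ∧ a' ≤ g'.m ∧ g'.m ≤ b' ∧
        ∀ z, z ≠ e → ((a' ≤ z ∧ z < b') ↔ (a ≤ z ∧ z < b)) := by
      rcases hm with ⟨h1, h2⟩ | ⟨h1, h2⟩
      · exact ⟨a, b + 1, by omega, by omega, by omega, by omega, by omega, by omega, by omega,
          fun z hz => by omega⟩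
      · exact ⟨a - 1, b, by omega, by omega, by omega, by omega, by omega, by omega, by omega,
          fun z hz => by omega⟩
    have hi : ¬ ins g.m e := by unfold ins; omega
    have hce : e ∉ g.c := fun he => by
      have := mem_Ico.1 (hc he); omega
    have hU : ∀ z, z ≠ e → (svU g'.c a' b' g'.m z ↔ svU g.c a b g.m z) := by
      intro z hz
      have := hsub z hz
      unfold svU; rw [io z hz, h.hc z hz]; tauto
    have hL : ∀ z, z ≠ e → (svL g'.c a' b' g'.m z ↔ svL g.c a b g.m z) := by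
      intro z hz
      have := hsub z hz
      unfold svL; rw [io z hz, h.hc z hz]; tauto
    have hab : |g'.m| = |g.m| + 1 := by
      unfold ins at hi
      rcases abs_cases g.m with ⟨q1, q2⟩ | ⟨q1, q2⟩ <;> rcases abs_cases g'.m with ⟨q3, q4⟩ | ⟨q3, q4⟩ <;>
        rw [q1, q3] <;> omega
    have hcards : (uns k g'.c g'.h a' b' g'.m).card ≤ (uns k g.c g.h a b g.m).card ∧
        (uns 1 g'.c g'.q a' b' g'.m).card ≤ (uns 1 g.c g.q a b g.m).card := by
      cases ty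
      · have h1 : svL g'.c a' b' g'.m e := ⟨hae, heb, Or.inr fun he => hce ((h.hce' rfl).1 he)⟩
        have h2 : ¬ svU g.c a b g.m e := fun h3 => hr ⟨h3.1, h3.2.1⟩
        exact ⟨card_le_card (uns_CL hk' hU hL h1 h2 fun y hy => h.hh y (by simpa using hy)),
          card_le_card (uns_CL le_rfl hU hL h1 h2 fun y hy => h.hq y (by simpa using hy))⟩
      · have h1 : svU g'.c a' b' g'.m e := ⟨hae, heb, Or.inr ((h.hce rfl).2 hce)⟩
        have h2 : ¬ svL g.c a b g.m e := fun h3 => hr ⟨h3.1, h3.2.1⟩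
        exact ⟨card_le_card (uns_CU hk' hU hL h1 h2 fun y hy => h.hh y (by simpa using hy)),
          card_le_card (uns_CU le_rfl hU hL h1 h2 fun y hy => h.hq y (by simpa using hy))⟩
    refine ⟨a', b', by omega, ham', by omega, hmb', sub_c h.hc hc haa hbb hae heb,
      sub_f h.hh hh haa (by omega) (by split_ifs <;> omega) (by split_ifs <;> omega),
      sub_f h.hq hq haa (by omega) (by split_ifs <;> omega) (by split_ifs <;> omega), ?_⟩
    have := hcards.1
    have := hcards.2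
    push_cast
    omega

theorem uns_insert {j y a b m : ℤ} {c f f' : Finset ℤ} (hf : ∀ z, z ≠ y → (z ∈ f' ↔ z ∈ f)) :
    (uns j c f' a b m).card ≤ (uns j c f a b m).card + 1 := by
  have hs : uns j c f' a b m ⊆ insert y (uns j c f a b m) := by
    intro z hz
    by_cases n1 : z = y
    · rw [n1]; exact mem_insert_self _ _
    · refine mem_insert_of_mem ?_
      unfold uns at hz ⊢
      rw [mem_filter] at hz ⊢
      exact ⟨(hf z n1).1 hz.1, hz.2⟩
  exact (card_le_card hs).trans (card_insert_le _ _)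

theorem R_th {k : ℕ} {g g' : LL} {n : ℕ} (hm : g'.m = g.m) (hc : g'.c = g.c)
    (hh : ∀ z, z ≠ g.m → (z ∈ g'.h ↔ z ∈ g.h)) (hq : g'.q = g.q) (hR : R k g n) :
    R k g' (n + 1) := by
  obtain ⟨a, b, ha, ham, hb, hmb, h1, h2, h3, hcost⟩ := hR
  have hk' : (0 : ℤ) ≤ k := Int.natCast_nonneg k
  have := uns_insert (j := k) (a := a) (b := b) (m := g.m) (c := g.c) hh
  refine ⟨a, b, ha, by omega, hb, by omega, by rw [hc]; exact h1,
    sub_f hh h2 le_rfl le_rfl ham (by omega), by rw [hq]; exact h3, ?_⟩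
  rw [hm, hc, hq]
  push_cast
  omega

theorem R_tq {k : ℕ} {g g' : LL} {n : ℕ} (hm : g'.m = g.m) (hc : g'.c = g.c)
    (hq : ∀ z, z ≠ g.m → (z ∈ g'.q ↔ z ∈ g.q)) (hh : g'.h = g.h) (hR : R k g n) :
    R k g' (n + 1) := by
  obtain ⟨a, b, ha, ham, hb, hmb, h1, h2, h3, hcost⟩ := hR
  have := uns_insert (j := 1) (a := a) (b := b) (m := g.m) (c := g.c) hq
  refine ⟨a, b, ha, by omega, hb, by omega, by rw [hc]; exact h1, by rw [hh]; exact h2,
    sub_f hq h3 le_rfl le_rfl ham (by omega), ?_⟩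
  rw [hm, hc, hh]
  push_cast
  omega

theorem off1 (f : Finset ℤ) {m a y : ℤ} (hy : y ≠ m + a) : y ∈ f ∆ sh m {a} ↔ y ∈ f := by
  rw [mem_symmDiff, mem_sh, mem_singleton]
  have : ¬ y - m = a := by omega
  tauto

theorem off0 (f : Finset ℤ) {m y : ℤ} : y ∈ f ∆ sh m ∅ ↔ y ∈ f := by
  rw [mem_symmDiff, mem_sh]
  have : y - m ∉ (∅ : Finset ℤ) := notMem_empty _
  tauto

theorem offb (f : Finset ℤ) {m a y : ℤ} (hy : y ≠ m + a) (c : Bool) :
    y ∈ f ∆ sh m (if c then {a} else ∅) ↔ y ∈ f := by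
  cases c
  · exact off0 f
  · exact off1 f hy

theorem on1 (f : Finset ℤ) {m a : ℤ} : m + a ∈ f ∆ sh m {a} ↔ m + a ∉ f := by
  rw [mem_symmDiff, mem_sh, mem_singleton]
  have : m + a - m = a := by omega
  tauto

theorem mv_up (k : ℕ) (g : LL) (u w : Bool) : Mv k g (g * up u w) g.m true := by
  refine ⟨Or.inl ⟨rfl, rfl⟩, fun z hz => ?_, fun _ => ?_, fun h => by simp at h, fun y hy => ?_,
    fun y hy => ?_⟩
  · exact off1 g.c (by omega)
  · have := on1 g.c (m := g.m) (a := 0)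
    rw [add_zero] at this
    exact this
  · rw [if_pos rfl] at hy
    exact offb g.h (by omega) u
  · rw [if_pos rfl] at hy
    exact offb g.q (by omega) w

theorem mv_up' (k : ℕ) (g : LL) (u w : Bool) : Mv k g (g * (up u w)⁻¹) (g.m - 1) true := by
  have hmm : (g * (up u w)⁻¹).m = g.m - 1 := rfl
  have hcc : (g * (up u w)⁻¹).c = g.c ∆ sh (g.m + -1) {0} := by
    rw [← sh_sh]; rfl
  have hhh : (g * (up u w)⁻¹).h = g.h ∆ sh (g.m + -1) (if u then {0} else ∅) := by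
    rw [← sh_sh]; rfl
  have hqq : (g * (up u w)⁻¹).q = g.q ∆ sh (g.m + -1) (if w then {0} else ∅) := by
    rw [← sh_sh]; rfl
  refine ⟨Or.inr ⟨by omega, hmm⟩, fun z hz => ?_, fun _ => ?_,
    fun h => by simp at h, fun y hy => ?_, fun y hy => ?_⟩
  · rw [hcc]; exact off1 g.c (by omega)
  · have := on1 g.c (m := g.m + -1) (a := 0)
    rw [add_zero] at this
    rw [hcc]
    exact this
  · rw [if_pos rfl] at hy
    rw [hhh]
    exact offb g.h (by omega) u
  · rw [if_pos rfl] at hy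
    rw [hqq]
    exact offb g.q (by omega) w

theorem mv_lo (k : ℕ) (g : LL) (v z : Bool) : Mv k g (g * lo k v z) g.m false := by
  refine ⟨Or.inl ⟨rfl, rfl⟩, fun z hz => ?_, fun h => by simp at h, fun _ => ?_, fun y hy => ?_,
    fun y hy => ?_⟩
  · exact off0 g.c
  · exact off0 g.c
  · rw [if_neg (by simp)] at hy
    exact offb g.h hy v
  · rw [if_neg (by simp)] at hy
    exact offb g.q hy z

theorem mv_lo' (k : ℕ) (g : LL) (v z : Bool) : Mv k g (g * (lo k v z)⁻¹) (g.m - 1) false := by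
  have hmm : (g * (lo k v z)⁻¹).m = g.m - 1 := rfl
  have hcc : (g * (lo k v z)⁻¹).c = g.c ∆ sh (g.m + -1) ∅ := by
    rw [← sh_sh]; rfl
  have hhh : (g * (lo k v z)⁻¹).h = g.h ∆ sh (g.m + -1) (if v then {(k : ℤ)} else ∅) := by
    rw [← sh_sh]; rfl
  have hqq : (g * (lo k v z)⁻¹).q = g.q ∆ sh (g.m + -1) (if z then {1} else ∅) := by
    rw [← sh_sh]; rfl
  refine ⟨Or.inr ⟨by omega, hmm⟩, fun z hz => ?_, fun h => by simp at h,
    fun _ => ?_, fun y hy => ?_, fun y hy => ?_⟩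
  · rw [hcc]; exact off0 g.c
  · rw [hcc]; exact off0 g.c
  · rw [if_neg (by simp)] at hy
    rw [hhh]
    exact offb g.h (by omega) v
  · rw [if_neg (by simp)] at hy
    rw [hqq]
    exact offb g.q (by omega) z

theorem th_inv : th⁻¹ = th := by
  ext1 <;> simp [th]

theorem tq_inv : tq⁻¹ = tq := by
  ext1 <;> simp [tq]

theorem mem_gen {k : ℕ} {s : LL} (h : s ∈ gen k) :
    (∃ u w, s = up u w) ∨ (∃ v z, s = lo k v z) ∨ s = th ∨ s = tq := by
  unfold gen at h
  simp only [mem_union, mem_image, mem_univ, true_and, mem_insert, mem_singleton] at h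
  rcases h with (⟨p, rfl⟩ | ⟨p, rfl⟩) | h
  · exact Or.inl ⟨_, _, rfl⟩
  · exact Or.inr (Or.inl ⟨_, _, rfl⟩)
  · exact Or.inr (Or.inr h)

theorem R_thm {k : ℕ} {g : LL} {n : ℕ} (hR : R k g n) : R k (g * th) (n + 1) := by
  refine R_th (by simp [th]) (by simp [th]) (fun z hz => ?_) (by simp [th]) hR
  exact off1 g.h (by omega)

theorem R_tqm {k : ℕ} {g : LL} {n : ℕ} (hR : R k g n) : R k (g * tq) (n + 1) := by
  refine R_tq (by simp [tq]) (by simp [tq]) (fun z hz => ?_) (by simp [tq]) hR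
  exact off1 g.q (by omega)

theorem R_step {k : ℕ} (hk : 1 ≤ k) {g s : LL} {n : ℕ} (hR : R k g n)
    (hs : s ∈ gen k ∨ s⁻¹ ∈ gen k) : R k (g * s) (n + 1) := by
  rcases hs with hs | hs
  · rcases mem_gen hs with ⟨u, w, rfl⟩ | ⟨v, z, rfl⟩ | rfl | rfl
    · exact R_move hk (mv_up k g u w) hR
    · exact R_move hk (mv_lo k g v z) hR
    · exact R_thm hR
    · exact R_tqm hR
  · rcases mem_gen hs with ⟨u, w, h⟩ | ⟨v, z, h⟩ | h | h
    · rw [← inv_inv s, h]; exact R_move hk (mv_up' k g u w) hR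
    · rw [← inv_inv s, h]; exact R_move hk (mv_lo' k g v z) hR
    · rw [← inv_inv s, h, th_inv]; exact R_thm hR
    · rw [← inv_inv s, h, tq_inv]; exact R_tqm hR

theorem R_mono {k : ℕ} {g : LL} {n n' : ℕ} (h : n ≤ n') (hR : R k g n) : R k g n' := by
  obtain ⟨a, b, h1, h2, h3, h4, h5, h6, h7, h8⟩ := hR
  exact ⟨a, b, h1, h2, h3, h4, h5, h6, h7, h8.trans (by exact_mod_cast h)⟩

theorem s_UP : S_UP := by
  intro k g n hk hg
  obtain ⟨l, hl, hs, rfl⟩ := hg
  refine R_mono hl ?_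
  clear hl
  induction l using List.reverseRecOn with
  | nil =>
    refine ⟨0, 0, le_rfl, by simp, le_rfl, by simp, by simp, by simp, by simp, ?_⟩
    simp [uns]
  | append_singleton l s ih =>
    rw [List.prod_append, List.prod_singleton, List.length_append, List.length_singleton]
    exact R_step hk (ih fun t ht => hs t (List.mem_append_left _ ht))
      (hs s (List.mem_append_right _ (List.mem_singleton_self s)))

end Pool.Agent.L7h65.GR
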